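import Pool.Agent.Helper18.SU.Goals

/-!
# SU FPA: the version with a path
-/

set_option autoImplicit false

open Pool.Agent.Helper18.SU

namespace Pool.Agent.Helper78.SU

theorem FPA (h1 : FTR_stmt) (h2 : ROOT_stmt) (h3 : PTF_stmt) : FPA_stmt := by
  classical
  intro n D hD hG a b w hw N hN T hT1 hT2
  have hinj : ∀ i ≤ w.length, ∀ j ≤ w.length, w.getVert i = w.getVert j → i = j := by
    intro i hi j hj h
    exact hw.getVert_injOn (by rw [Set.mem_ofPred_eq]; exact hi)
      (by rw [Set.mem_ofPred_eq]; exact hj) h
  set K : Finset (Fin n) := w.support.toFinset with hK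
  have hKc : K.card = w.length + 1 := by
    rw [hK, List.toFinset_card_of_nodup hw.support_nodup, SimpleGraph.Walk.length_support]
  have haK : a ∈ K := by rw [hK]; simp
  have hKn : K.card ≤ n := by
    have := Finset.card_le_univ K
    simpa using this
  have hpre : ((SimpleGraph.fromRel D.Adj).induce (K : Set (Fin n))).Preconnected := by
    have hc := (SimpleGraph.Walk.connected_induce_support w).preconnected
    have he : (K : Set (Fin n)) = {v | v ∈ w.support} := by
      ext v
      rw [hK]
      simp
    rw [he]
    exact hc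
  obtain ⟨par, dep, -, hadj, -, hpath⟩ := h2 (Fin n) (SimpleGraph.fromRel D.Adj) hG a
  have hpw := hpath b w hw
  refine h1 n D hD hG K ⟨a, haK⟩ hpre (w.length + 2) (by omega) ?_ N ?_ T hT1 hT2
  · intro T' hT'1 hT'2
    obtain ⟨g, -, hginj, hgarc⟩ := h3 (Fin (w.length + 2)) (fun u v => T'.Adj u v)
      ⟨hT'1, hT'2⟩ (w.length + 1) (fun i => decide (D.Adj (w.getVert i) (w.getVert (i + 1))))
      Finset.univ (by simp)
    have hidx : ∀ v ∈ K, ∃ i ≤ w.length, w.getVert i = v := by
      intro v hv
      rw [hK, List.mem_toFinset, SimpleGraph.Walk.mem_support_iff_exists_getVert] at hv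
      obtain ⟨i, hi, hil⟩ := hv
      exact ⟨i, hil, hi⟩
    let idx : Fin n → ℕ := fun v => if h : ∃ i ≤ w.length, w.getVert i = v then h.choose else 0
    have hidx2 : ∀ i ≤ w.length, idx (w.getVert i) = i := by
      intro i hi
      have h : ∃ j ≤ w.length, w.getVert j = w.getVert i := ⟨i, hi, rfl⟩
      have h4 : idx (w.getVert i) = h.choose := dif_pos h
      rw [h4]
      exact hinj _ h.choose_spec.1 _ hi h.choose_spec.2
    refine ⟨fun v => g (idx v), ?_, ?_⟩
    · intro u hu v hv huv
      obtain ⟨i, hi, rfl⟩ := hidx u hu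
      obtain ⟨j, hj, rfl⟩ := hidx v hv
      simp only [hidx2 i hi, hidx2 j hj] at huv
      rw [hginj i (by omega) j (by omega) huv]
    · intro u hu v hv huv
      obtain ⟨i, hi, rfl⟩ := hidx u hu
      obtain ⟨j, hj, rfl⟩ := hidx v hv
      simp only [hidx2 i hi, hidx2 j hj]
      have hne : w.getVert i ≠ w.getVert j := by
        intro h
        rw [h] at huv
        exact hD _ _ huv huv
      have hG' : (SimpleGraph.fromRel D.Adj).Adj (w.getVert i) (w.getVert j) := by
        rw [SimpleGraph.fromRel_adj]
        exact ⟨hne, Or.inl huv⟩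
      rcases (hadj _ _).1 hG' with ⟨hu', hp⟩ | ⟨hv', hp⟩
      · -- `par (getVert i) = getVert j`
        have hi0 : i ≠ 0 := by
          rintro rfl
          exact hu' (by simp)
        obtain ⟨i', rfl⟩ := Nat.exists_eq_succ_of_ne_zero hi0
        have h5 := (hpw i' (by omega)).2
        have h6 : j = i' := hinj _ hj _ (by omega) (by rw [← hp]; exact h5)
        subst h6
        have h7 := hgarc j (by omega)
        have h8 : decide (D.Adj (w.getVert j) (w.getVert (j + 1))) = false := by
          rw [decide_eq_false_iff_not]
          exact hD _ _ huv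
        simp only [h8, Arc] at h7
        exact h7
      · have hj0 : j ≠ 0 := by
          rintro rfl
          exact hv' (by simp)
        obtain ⟨j', rfl⟩ := Nat.exists_eq_succ_of_ne_zero hj0
        have h5 := (hpw j' (by omega)).2
        have h6 : i = j' := hinj _ hi _ (by omega) (by rw [← hp]; exact h5)
        subst h6
        have h7 := hgarc i (by omega)
        have h8 : decide (D.Adj (w.getVert i) (w.getVert (i + 1))) = true := by
          rw [decide_eq_true_iff]
          exact huv
        simp only [h8, Arc] at h7
        exact h7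
  · rw [hKc]
    have h9 : ((n - (w.length + 1) : ℕ) : ℝ) = (n : ℝ) - (w.length + 1) := by
      rw [Nat.cast_sub (by omega)]
      push_cast
      ring
    rw [h9]
    push_cast
    linarith

end Pool.Agent.Helper78.SU
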